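import Pool.Agent.helper95.RF.SpecC

/-!
# RF, block C, row CLO: existence of the residue classes
-/

set_option autoImplicit false

namespace Pool.Agent.RF

open Finset NumberField Pool.Agent.helper3.FT

/-! ## Chinese remainder theorem -/

theorem CLO_crt2 (A B : ℤ) (h : IsCoprime A B) (a b : ℤ) : ∃ x : ℤ, A ∣ x - a ∧ B ∣ x - b := by
  obtain ⟨u, v, huv⟩ := h
  refine ⟨a * (v * B) + b * (u * A), ⟨u * (b - a), ?_⟩, ⟨v * (a - b), ?_⟩⟩
  · linear_combination a * huv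
  · linear_combination b * huv

theorem CLO_crt3 (A B C : ℤ) (hA : 0 < A) (hB : 0 < B) (hC : 0 < C) (hAB : IsCoprime A B) (hAC : IsCoprime A C) (hBC : IsCoprime B C) (a b c : ℤ) :
    ∃ x : ℤ, 0 ≤ x ∧ x < A * B * C ∧ A ∣ x - a ∧ B ∣ x - b ∧ C ∣ x - c := by
  obtain ⟨x1, h1, h2⟩ := CLO_crt2 A B hAB a b
  obtain ⟨x2, h3, h4⟩ := CLO_crt2 (A * B) C (hAC.mul_left hBC) x1 c
  have hE : 0 < A * B * C := by positivity
  have hx : A * B * C ∣ x2 % (A * B * C) - x2 := by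
    have := Int.emod_add_mul_ediv x2 (A * B * C)
    exact ⟨-(x2 / (A * B * C)), by linear_combination this⟩
  have hA' : A ∣ x2 % (A * B * C) - x2 := (Dvd.intro _ (mul_assoc A B C).symm).trans hx
  have hB' : B ∣ x2 % (A * B * C) - x2 := (Dvd.intro (A * C) (by ring)).trans hx
  have hC' : C ∣ x2 % (A * B * C) - x2 := (Dvd.intro (A * B) (by ring)).trans hx
  have hA'' : A ∣ x2 - x1 := (Dvd.intro B rfl).trans h3
  have hB'' : B ∣ x2 - x1 := (Dvd.intro A (mul_comm B A)).trans h3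
  refine ⟨x2 % (A * B * C), Int.emod_nonneg _ hE.ne', Int.emod_lt_of_pos _ hE, ?_, ?_, ?_⟩
  · have := dvd_add (dvd_add hA' hA'') h1
    have e : x2 % (A * B * C) - x2 + (x2 - x1) + (x1 - a) = x2 % (A * B * C) - a := by ring
    rwa [e] at this
  · have := dvd_add (dvd_add hB' hB'') h2
    have e : x2 % (A * B * C) - x2 + (x2 - x1) + (x1 - b) = x2 % (A * B * C) - b := by ring
    rwa [e] at this
  · have := dvd_add hC' h4
    have e : x2 % (A * B * C) - x2 + (x2 - c) = x2 % (A * B * C) - c := by ring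
    rwa [e] at this

/-! ## Elements of `ℤ[φ]` -/

theorem CLO_dvd (n : ℤ) (z : OO) (h1 : n ∣ z.re) (h2 : n ∣ z.im) : (n : OO) ∣ z := by
  obtain ⟨a, ha⟩ := h1
  obtain ⟨b, hb⟩ := h2
  refine ⟨⟨a, b⟩, ?_⟩
  apply QuadraticAlgebra.ext
  · simp [ha]
  · simp [hb]

theorem CLO_star (n : ℤ) (z : OO) (h : (n : OO) ∣ z) : (n : OO) ∣ star z := by
  obtain ⟨w, rfl⟩ := h
  refine ⟨star w, ?_⟩
  rw [star_mul', star_intCast]

theorem CLO_ph : ph + star ph = 1 ∧ ph * star ph = -1 ∧ r5 = ph - star ph ∧ w2 = r5 * ph := by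
  refine ⟨?_, ?_, ?_, ?_⟩ <;> apply QuadraticAlgebra.ext <;> simp [ph, r5, w2, QuadraticAlgebra.star_mk] <;> rfl

theorem CLO_im (z : OO) : r5 * (z.im : OO) = z - star z := by
  apply QuadraticAlgebra.ext
  · simp [r5]
    try ring
  · simp [r5]
    try ring

theorem CLO_norm (z : OO) : ((z.norm : ℤ) : OO) = z * star z := by
  rw [← QuadraticAlgebra.algebraMap_norm_eq_mul_star, eq_intCast]

/-- transfer of the congruence -/
theorem CLO_trans (N : ℤ) (A M₀ M₁ : OO) (s₀ s₁ : ℤ) (hM : (N : OO) ∣ M₀ - M₁) (hs : N ∣ s₀ - s₁)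
    (h : (N : OO) ∣ A - (r5 * (s₁ : OO) - M₁ * star M₁)) : (N : OO) ∣ A - (r5 * (s₀ : OO) - (M₀.norm : OO)) := by
  have h1 : (N : OO) ∣ star M₀ - star M₁ := by
    rw [← star_sub]
    exact CLO_star _ _ hM
  have h2 : (N : OO) ∣ (s₀ : OO) - (s₁ : OO) := by
    rw [← Int.cast_sub]
    exact Int.cast_dvd_cast _ _ hs
  have e : A - (r5 * (s₀ : OO) - (M₀.norm : OO)) = (A - (r5 * (s₁ : OO) - M₁ * star M₁)) - r5 * ((s₀ : OO) - s₁) + ((M₀ - M₁) * star M₀ + M₁ * (star M₀ - star M₁)) := by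
    rw [CLO_norm]
    ring
  rw [e]
  exact dvd_add (dvd_sub h (Dvd.dvd.mul_left h2 _)) (dvd_add (Dvd.dvd.mul_right hM _) (Dvd.dvd.mul_left h1 _))

/-! ## Identities -/

theorem CLO_a {R : Type} [CommRing R] (r y y' : R) (hr : r ^ 2 = 5) :
    (15625 : R) ∣ (1 + 13021250 * (r * (2 * y + y'))) ^ 2 * (1 - 13021250 * (r * (2 * y' + y))) - 1 - 1250 * (r * y) := by
  refine ⟨2500 * r * y + 54256944500 * ((2 * y + y') ^ 2 - 2 * (2 * y + y') * (2 * y' + y) - 13021250 * r * (2 * y + y') ^ 2 * (2 * y' + y)), ?_⟩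
  linear_combination (13021250 ^ 2 * ((2 * y + y') ^ 2 - 2 * (2 * y + y') * (2 * y' + y) - 13021250 * r * (2 * y + y') ^ 2 * (2 * y' + y))) * hr

theorem CLO_b {R : Type} [CommRing R] (r p p' k k' u v : R) (hr : r ^ 2 = 5) (hp : p * p' = -1) :
    (15625 : R) ∣ (1 + 13021250 * (r * u)) * ((p * k - k') * (1 - 13021250 * (r * u))) +
      p * (1 - 13021250 * (r * v)) * ((p' * k' - k) * (1 + 13021250 * (r * v))) + 2 * k' := by
  refine ⟨-54256944500 * (u ^ 2 * (p * k - k') + p * v ^ 2 * (p' * k' - k)), ?_⟩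
  linear_combination k' * hp - (13021250 ^ 2 * (u ^ 2 * (p * k - k') + p * v ^ 2 * (p' * k' - k))) * hr

theorem CLO_c {R : Type} [CommRing R] (r p p' k k' y y' : R) (hr : r ^ 2 = 5) (hp : p * p' = -1) (hy : y = p * k ^ 2) (hy' : y' = p' * k' ^ 2) :
    (15625 : R) ∣ y * (1 - 13021250 * (r * (2 * y' + y))) + y' * (1 + 13021250 * (r * (2 * y + y'))) +
      ((p * k - k') * (1 - 13021250 * (r * (2 * y + y')))) * ((p' * k' - k) * (1 + 13021250 * (r * (2 * y' + y)))) := by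
  refine ⟨54256944500 * ((y + y') * (2 * y + y') * (2 * y' + y)), ?_⟩
  have e : (p * k - k') * (p' * k' - k) = -(y + y') := by
    rw [hy, hy']
    linear_combination k * k' * hp
  linear_combination (1 - 13021250 * (r * (2 * y + y'))) * (1 + 13021250 * (r * (2 * y' + y))) * e +
    (13021250 ^ 2 * ((y + y') * (2 * y + y') * (2 * y' + y))) * hr

theorem CLO : CLO_stmt := by
  intro P k hP
  have hP0 : P ≠ 0 := by
    rintro rfl
    simp at hP
  have hP1 : (0 : ℤ) < P := by exact_mod_cast Nat.pos_of_ne_zero hP0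
  obtain ⟨q1, q2, q3, q4⟩ := CLO_ph
  have hr : r5 ^ 2 = 5 := by
    rw [q3]
    linear_combination (ph + star ph + 1) * q1 - 4 * q2
  obtain ⟨y, hy⟩ : ∃ y, y = ph * k ^ 2 := ⟨_, rfl⟩
  have hys : star y = star ph * star k ^ 2 := by rw [hy, star_mul', star_pow]
  have hrs : star r5 = -r5 := by rw [q3, star_sub, star_star]; ring
  -- targets
  obtain ⟨n₀, hn₀⟩ : ∃ n₀ : OO, n₀ = 1 + 13021250 * (r5 * (2 * y + star y)) := ⟨_, rfl⟩
  have hn₀s : star n₀ = 1 - 13021250 * (r5 * (2 * star y + y)) := by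
    rw [hn₀]
    simp only [star_add, star_mul', star_one, star_ofNat, star_star, hrs]
    ring
  obtain ⟨M5, hM5⟩ : ∃ M5 : OO, M5 = (ph * k - star k) * (1 - 13021250 * (r5 * (2 * y + star y))) := ⟨_, rfl⟩
  have hM5s : star M5 = (star ph * star k - k) * (1 + 13021250 * (r5 * (2 * star y + y))) := by
    rw [hM5]
    simp only [star_add, star_sub, star_mul', star_one, star_ofNat, star_star, hrs]
    ring
  obtain ⟨MP, hMP⟩ : ∃ MP : OO, MP = ph * k - star k := ⟨_, rfl⟩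
  have hMPs : star MP = star ph * star k - k := by
    rw [hMP, star_sub, star_mul', star_star]
  obtain ⟨z5, hz5⟩ : ∃ z5 : OO, z5 = y * star n₀ := ⟨_, rfl⟩
  have hc1 : IsCoprime (16 : ℤ) 15625 := by
    rw [Int.isCoprime_iff_gcd_eq_one]
    norm_num
  have hP10 : IsCoprime (P : ℤ) 10 := by
    have := Nat.isCoprime_iff_coprime.2 hP
    exact_mod_cast this
  have hP2 : IsCoprime (P : ℤ) 2 := hP10.of_isCoprime_of_dvd_right (by norm_num)
  have hP5 : IsCoprime (P : ℤ) 5 := hP10.of_isCoprime_of_dvd_right (by norm_num)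
  have hc2 : IsCoprime (16 : ℤ) P := by
    have := (hP2.pow_right (n := 4)).symm
    norm_num at this
    exact this
  have hc3 : IsCoprime (15625 : ℤ) P := by
    have := (hP5.pow_right (n := 6)).symm
    norm_num at this
    exact this
  have crt := CLO_crt3 16 15625 P (by norm_num) (by norm_num) hP1 hc1 hc2 hc3
  obtain ⟨a, a0, a1, a2, a3, a4⟩ := crt 0 M5.re MP.re
  obtain ⟨b, b0, b1, b2, b3, b4⟩ := crt 0 M5.im MP.im
  obtain ⟨s, s0, s1, s2, s3, s4⟩ := crt 2 z5.im y.im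
  have hE : (16 * 15625 * (P : ℤ)) = 16 * 5 ^ 6 * P := by norm_num
  rw [hE] at a1 b1 s1
  refine ⟨⟨a, b⟩, s, ?_, a0, a1, b0, b1, s0, s1⟩
  -- the differences
  have d2 : ((16 : ℤ) : OO) ∣ (⟨a, b⟩ : OO) := CLO_dvd 16 _ (by simpa using a2) (by simpa using b2)
  have d5 : ((15625 : ℤ) : OO) ∣ (⟨a, b⟩ : OO) - M5 := CLO_dvd 15625 _ (by simpa using a3) (by simpa using b3)
  have dP : ((P : ℤ) : OO) ∣ (⟨a, b⟩ : OO) - MP := CLO_dvd P _ (by simpa using a4) (by simpa using b4)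
  have e5 : (5 : OO) ^ 6 = ((15625 : ℤ) : OO) := by norm_num
  have e5' : (15625 : OO) = ((15625 : ℤ) : OO) := by norm_num
  have eP : (P : OO) = ((P : ℤ) : OO) := by norm_cast
  refine ⟨by simpa using d2, s2, ⟨n₀, ?_, ?_, ?_, ?_⟩, ?_⟩
  · rw [hn₀]
    exact ⟨520850 * (r5 * (2 * y + star y)), by ring⟩
  · rw [e5]
    refine CLO_trans 15625 _ _ M5 _ z5.im d5 s3 ?_
    have hz5s : star z5 = star y * n₀ := by rw [hz5, star_mul', star_star]
    have h1 := CLO_c r5 ph (star ph) k (star k) y (star y) hr q2 hy hys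
    rw [← hn₀, ← hn₀s, ← hM5, ← hM5s, e5'] at h1
    rw [CLO_im, hz5s, hz5]
    have e : 2 * ph * star n₀ * k ^ 2 - (y * star n₀ - star y * n₀ - M5 * star M5) = y * star n₀ + star y * n₀ + M5 * star M5 := by
      rw [hy]
      ring
    rw [e]
    exact h1
  · rw [e5]
    have h1 := CLO_b r5 ph (star ph) k (star k) (2 * y + star y) (2 * star y + y) hr q2
    rw [← hn₀, ← hn₀s, ← hM5, ← hM5s, e5'] at h1
    have h2 := CLO_star _ _ d5
    rw [star_sub] at h2
    have e : n₀ * (⟨a, b⟩ : OO) + ph * star n₀ * star (⟨a, b⟩ : OO) + 2 * star k =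
        (n₀ * M5 + ph * star n₀ * star M5 + 2 * star k) + n₀ * ((⟨a, b⟩ : OO) - M5) + ph * star n₀ * (star (⟨a, b⟩ : OO) - star M5) := by ring
    rw [e]
    exact dvd_add (dvd_add h1 (Dvd.dvd.mul_left d5 _)) (Dvd.dvd.mul_left h2 _)
  · rw [e5]
    have h1 := CLO_a r5 y (star y) hr
    rw [← hn₀, ← hn₀s, e5'] at h1
    have e : n₀ ^ 2 * star n₀ - 1 - 1250 * w2 * k ^ 2 = n₀ ^ 2 * star n₀ - 1 - 1250 * (r5 * y) := by
      rw [q4, hy]
      ring
    rw [e]
    exact h1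
  · rw [eP]
    refine CLO_trans P _ _ MP _ y.im dP s4 ?_
    have e : 2 * ph * k ^ 2 - (r5 * (y.im : OO) - MP * star MP) = 0 := by
      rw [CLO_im, hMPs, hMP, hys, hy]
      linear_combination k * star k * q2
    rw [e]
    exact dvd_zero _

end Pool.Agent.RF
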