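import Pool.Agent.helper60.RF.SpecB

/-!
# RF, block B, row CTA: basis of the mirror field
-/

set_option autoImplicit false

namespace Pool.Agent.RF

open NumberField

theorem CTA_sq (q : ℚ) : q ^ 2 ≠ 5 := by
  intro h
  have h1 : ¬ IsSquare (5 : ℚ) := by norm_num
  exact h1 ⟨q, by rw [← h]; ring⟩

theorem CTA_one {F : Type} [Field F] [CharZero F] (r : F) (hr : r ^ 2 = 5) (a b : ℚ) (h : (a : F) + b * r = 0) : a = 0 ∧ b = 0 := by
  have hb : b = 0 := by
    by_contra hb
    have hb' : (b : F) ≠ 0 := by exact_mod_cast hb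
    have h1 : r = ((-a / b : ℚ) : F) := by
      push_cast
      rw [eq_div_iff hb']
      linear_combination h
    have h2 : ((-a / b) ^ 2 : ℚ) = 5 := by
      have h3 : (((-a / b) ^ 2 : ℚ) : F) = ((5 : ℚ) : F) := by
        rw [Rat.cast_pow, ← h1, hr]
        norm_num
      exact_mod_cast h3
    exact CTA_sq _ h2
  subst hb
  refine ⟨?_, rfl⟩
  rw [Rat.cast_zero, zero_mul, add_zero] at h
  exact_mod_cast h

theorem CTA_ind {F : Type} [Field F] [CharZero F] (D : ℤ) (hD : 0 < D) (r w : F) (hr : r ^ 2 = 5) (hw : w ^ 2 = -(r * ((1 + r) / 2) * D))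
    (a b c d : ℚ) (h : (a : F) + b * r + (c + d * r) * w = 0) : a = 0 ∧ b = 0 ∧ c = 0 ∧ d = 0 := by
  have hD0 : (0 : ℚ) < D := by exact_mod_cast hD
  by_cases hcd : (c : F) + d * r = 0
  · obtain ⟨h1, h2⟩ := CTA_one r hr c d hcd
    rw [hcd, zero_mul, add_zero] at h
    obtain ⟨h3, h4⟩ := CTA_one r hr a b h
    exact ⟨h3, h4, h1, h2⟩
  · exfalso
    have hN : c ^ 2 - 5 * d ^ 2 ≠ 0 := by
      intro h0
      have h1 : ((c : F) + d * r) * (c - d * r) = ((c ^ 2 - 5 * d ^ 2 : ℚ) : F) := by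
        push_cast
        linear_combination -(d : F) ^ 2 * hr
      rw [h0, Rat.cast_zero] at h1
      rcases mul_eq_zero.1 h1 with h2 | h2
      · exact hcd h2
      · have h3 : (c : F) + ((-d : ℚ) : F) * r = 0 := by
          push_cast
          linear_combination h2
        obtain ⟨h4, h5⟩ := CTA_one r hr c (-d) h3
        have h6 : d = 0 := by linarith
        apply hcd
        rw [h4, h6]
        simp
    have hN' : ((c ^ 2 - 5 * d ^ 2 : ℚ) : F) ≠ 0 := by exact_mod_cast hN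
    -- `w` is in `ℚ(r)`
    obtain ⟨A, hA⟩ : ∃ A : ℚ, A = -(a * c - 5 * b * d) / (c ^ 2 - 5 * d ^ 2) := ⟨_, rfl⟩
    obtain ⟨B, hB⟩ : ∃ B : ℚ, B = -(b * c - a * d) / (c ^ 2 - 5 * d ^ 2) := ⟨_, rfl⟩
    have e1 : A * (c ^ 2 - 5 * d ^ 2) = -(a * c - 5 * b * d) := by rw [hA, div_mul_cancel₀ _ hN]
    have e2 : B * (c ^ 2 - 5 * d ^ 2) = -(b * c - a * d) := by rw [hB, div_mul_cancel₀ _ hN]
    have e1' : (A : F) * (c ^ 2 - 5 * d ^ 2) = -(a * c - 5 * b * d) := by exact_mod_cast congrArg (fun q : ℚ => (q : F)) e1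
    have e2' : (B : F) * (c ^ 2 - 5 * d ^ 2) = -(b * c - a * d) := by exact_mod_cast congrArg (fun q : ℚ => (q : F)) e2
    have hw1 : w = A + B * r := by
      have h1 : ((c ^ 2 - 5 * d ^ 2 : ℚ) : F) * w = ((c ^ 2 - 5 * d ^ 2 : ℚ) : F) * (A + B * r) := by
        push_cast
        linear_combination ((c : F) - d * r) * h - e1' - r * e2' + ((d : F) ^ 2 * w + (b : F) * d) * hr
      exact mul_left_cancel₀ hN' h1
    have h2 : (((A ^ 2 + 5 * B ^ 2 + 5 * D / 2 : ℚ)) : F) + ((2 * A * B + D / 2 : ℚ) : F) * r = 0 := by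
      push_cast
      rw [hw1] at hw
      have hr' : r * r = 5 := by rw [← sq, hr]
      linear_combination hw - (B : F) ^ 2 * hr - (D : F) / 2 * hr
    have h3 := (CTA_one r hr _ _ h2).1
    nlinarith [sq_nonneg A, sq_nonneg B]

theorem CTA : CTA_stmt := by
  intro D F _ _ s r w hD hM
  refine ⟨?_, fun a b c d h => CTA_ind D hD r w hM.r2 hM.w2 a b c d h⟩
  intro x
  have hli : LinearIndependent ℚ ![(1 : F), r, w, r * w] := by
    rw [Fintype.linearIndependent_iff]
    intro g hg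
    rw [Fin.sum_univ_four] at hg
    simp only [Matrix.cons_val_zero, Matrix.cons_val_one, Matrix.cons_val, Rat.smul_def] at hg
    obtain ⟨h0, h1, h2, h3⟩ := CTA_ind D hD r w hM.r2 hM.w2 (g 0) (g 1) (g 2) (g 3) (by linear_combination hg)
    intro i
    fin_cases i
    · exact h0
    · exact h1
    · exact h2
    · exact h3
  have hsp := hli.span_eq_top_of_card_eq_finrank' (by rw [hM.fin]; rfl)
  have hx : x ∈ Submodule.span ℚ (Set.range ![(1 : F), r, w, r * w]) := by
    rw [hsp]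
    trivial
  obtain ⟨g, hg⟩ := (Submodule.mem_span_range_iff_exists_fun ℚ).1 hx
  rw [Fin.sum_univ_four] at hg
  simp only [Matrix.cons_val_zero, Matrix.cons_val_one, Matrix.cons_val, Rat.smul_def] at hg
  exact ⟨g 0, g 1, g 2, g 3, by linear_combination -hg⟩

end Pool.Agent.RF
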