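import Pool.Agent.helper95.RF.SpecC2

set_option autoImplicit false

namespace Pool.Agent.RF

open Finset NumberField Pool.Agent.helper3.FT

/-- the product of the primes up to `w`, except `2` and `5` -/
def CGD_P (w : ℕ) : ℕ := ∏ p ∈ (Icc 1 w).filter (fun p => p.Prime ∧ p ≠ 2 ∧ p ≠ 5), p

theorem CGD_P_pos (w : ℕ) : 1 ≤ CGD_P w := by
  unfold CGD_P
  apply Nat.one_le_iff_ne_zero.2
  rw [Finset.prod_ne_zero_iff]
  intro p hp
  have := (Finset.mem_filter.1 hp).2.1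
  exact this.ne_zero

theorem CGD_P_coprime (w : ℕ) : Nat.Coprime (CGD_P w) 10 := by
  unfold CGD_P
  apply Nat.Coprime.prod_left
  intro p hp
  obtain ⟨_, h1, h2, h5⟩ := Finset.mem_filter.1 hp
  rw [Nat.Prime.coprime_iff_not_dvd h1]
  intro h
  have h3 : p ∣ 2 * 5 := by norm_num; exact h
  rcases (Nat.Prime.dvd_mul h1).1 h3 with h4 | h4
  · exact h2 ((Nat.prime_dvd_prime_iff_eq h1 Nat.prime_two).1 h4)
  · exact h5 ((Nat.prime_dvd_prime_iff_eq h1 Nat.prime_five).1 h4)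

theorem CGD_P_dvd (w l : ℕ) (hl : l.Prime) (h2 : l ≠ 2) (h5 : l ≠ 5) (h : l ≤ w) : l ∣ CGD_P w := by
  unfold CGD_P
  apply Finset.dvd_prod_of_mem
  rw [Finset.mem_filter]
  exact ⟨Finset.mem_Icc.2 ⟨hl.one_lt.le, h⟩, hl, h2, h5⟩

/-- `l` prime not dividing `10 P` is coprime to `E` -/
theorem CGD_cop (l P : ℕ) (hl : l.Prime) (h : ¬ l ∣ 10 * P) : Nat.Coprime l (16 * 5 ^ 6 * P) := by
  rw [Nat.Prime.coprime_iff_not_dvd hl]
  intro h1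
  apply h
  rcases (Nat.Prime.dvd_mul hl).1 h1 with h2 | h2
  · rcases (Nat.Prime.dvd_mul hl).1 h2 with h3 | h3
    · have h4 : l ∣ 2 := by
        have : l ∣ 2 ^ 4 := by norm_num; exact h3
        exact hl.dvd_of_dvd_pow this
      exact Dvd.dvd.mul_right (h4.trans (by norm_num)) P
    · have h4 : l ∣ 5 := hl.dvd_of_dvd_pow h3
      exact Dvd.dvd.mul_right (h4.trans (by norm_num)) P
  · exact Dvd.dvd.mul_left h2 10

/-- the number of the elements `k` is at most `Q` -/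
theorem CGD_card (Q : ℕ) (T : Finset OO) (hT : KF Q T) : T.card ≤ Q := by
  have h1 : T.card ≤ (Ioc Q (2 * Q)).card := by
    apply Finset.card_le_card_of_injOn (fun k => k.norm.natAbs)
    · intro k hk
      have := hT.kk k hk
      simp only [Finset.coe_Ioc, Set.mem_Ioc]
      exact ⟨this.lo, this.hi⟩
    · intro k hk k' hk' h
      exact hT.inj k hk k' hk' h
  rw [Nat.card_Ioc] at h1
  omega

/-- the numbers -/
theorem CGD_num (B : ℕ) (η : ℝ) (h0 : 0 < η) : ∃ N₀ : ℝ, ∀ N : ℝ, N₀ ≤ N →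
    (B : ℝ) * N ^ (1 / 2 - η) ≤ N ^ (1 / 2 - 3 / 4 * η) ∧
    N ^ (1 - 5 / 4 * η) + N ^ (1 - 4 / 5 * η) + 4 * (8 * B ^ 2 * N ^ (1 - 4 / 3 * η)) ≤
      1 / 8 * N ^ (1 - 17 / 25 * η) ∧
    N ^ (1 - 7 / 10 * η) ≤ 1 / 2 * N ^ (1 - 17 / 25 * η) := by
  have key : ∀ (C a b : ℝ), b < a → ∃ N₀ : ℝ, 1 ≤ N₀ ∧ ∀ N : ℝ, N₀ ≤ N → C * N ^ b ≤ N ^ a := by
    intro C a b hab
    have h1 : Filter.Tendsto (fun N : ℝ => N ^ (a - b)) Filter.atTop Filter.atTop :=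
      tendsto_rpow_atTop (by linarith)
    have h2 := (h1.eventually (Filter.eventually_ge_atTop C)).and (Filter.eventually_ge_atTop (1 : ℝ))
    obtain ⟨N₀, h3⟩ := Filter.eventually_atTop.1 h2
    refine ⟨max N₀ 1, le_max_right _ _, fun N hN => ?_⟩
    obtain ⟨h4, h5⟩ := h3 N ((le_max_left _ _).trans hN)
    have h6 : N ^ a = N ^ (a - b) * N ^ b := by
      rw [← Real.rpow_add (by linarith)]
      congr 1
      ring
    rw [h6]
    exact mul_le_mul_of_nonneg_right h4 (Real.rpow_nonneg (by linarith) _)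
  obtain ⟨N1, g1, k1⟩ := key B (1 / 2 - 3 / 4 * η) (1 / 2 - η) (by linarith)
  obtain ⟨N2, g2, k2⟩ := key 24 (1 - 17 / 25 * η) (1 - 5 / 4 * η) (by linarith)
  obtain ⟨N3, g3, k3⟩ := key 24 (1 - 17 / 25 * η) (1 - 4 / 5 * η) (by linarith)
  obtain ⟨N4, g4, k4⟩ := key (768 * B ^ 2) (1 - 17 / 25 * η) (1 - 4 / 3 * η) (by linarith)
  obtain ⟨N5, g5, k5⟩ := key 2 (1 - 17 / 25 * η) (1 - 7 / 10 * η) (by linarith)
  refine ⟨max N1 (max N2 (max N3 (max N4 N5))), fun N hN => ?_⟩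
  have e1 := k1 N ((le_max_left _ _).trans hN)
  have hN' := (le_max_right _ _).trans hN
  have e2 := k2 N ((le_max_left _ _).trans hN')
  have hN'' := (le_max_right _ _).trans hN'
  have e3 := k3 N ((le_max_left _ _).trans hN'')
  have hN3 := (le_max_right _ _).trans hN''
  have e4 := k4 N ((le_max_left _ _).trans hN3)
  have e5 := k5 N ((le_max_right _ _).trans hN3)
  refine ⟨e1, ?_, ?_⟩
  · linarith
  · linarith

/-- the combinatorial part for one `k`: removing the bad tuples -/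
theorem CGD_remove {α β : Type*} (H : Finset α) (b0 : α → Prop) (Λ : Finset ℕ) (G : ℕ → Finset β)
    (b1 : ℕ → β → α → Prop) {d0 : DecidablePred b0} {d1 : ∀ l p, DecidablePred (b1 l p)}
    {d2 : DecidablePred (fun t => ¬ b0 t ∧ ∀ l ∈ Λ, ∀ p ∈ G l, ¬ b1 l p t)} :
    (H.card : ℝ) - ((H.filter b0).card : ℝ) - ∑ l ∈ Λ, ∑ p ∈ G l, ((H.filter (b1 l p)).card : ℝ) ≤
      ((H.filter (fun t => ¬ b0 t ∧ ∀ l ∈ Λ, ∀ p ∈ G l, ¬ b1 l p t)).card : ℝ) := by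
  classical
  have h1 : H ⊆ (H.filter (fun t => ¬ b0 t ∧ ∀ l ∈ Λ, ∀ p ∈ G l, ¬ b1 l p t)) ∪
      (H.filter b0 ∪ Λ.biUnion (fun l => (G l).biUnion (fun p => H.filter (b1 l p)))) := by
    intro t ht
    by_cases h0 : b0 t
    · exact Finset.mem_union_right _ (Finset.mem_union_left _ (Finset.mem_filter.2 ⟨ht, h0⟩))
    · by_cases h2 : ∀ l ∈ Λ, ∀ p ∈ G l, ¬ b1 l p t
      · exact Finset.mem_union_left _ (Finset.mem_filter.2 ⟨ht, h0, h2⟩)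
      · push Not at h2
        obtain ⟨l, hl, p, hp, h3⟩ := h2
        refine Finset.mem_union_right _ (Finset.mem_union_right _ ?_)
        rw [Finset.mem_biUnion]
        refine ⟨l, hl, ?_⟩
        rw [Finset.mem_biUnion]
        exact ⟨p, hp, Finset.mem_filter.2 ⟨ht, h3⟩⟩
  have h2 := (Finset.card_le_card h1).trans (Finset.card_union_le _ _)
  have h3 := Finset.card_union_le (H.filter b0)
    (Λ.biUnion (fun l => (G l).biUnion (fun p => H.filter (b1 l p))))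
  have h4 : (Λ.biUnion (fun l => (G l).biUnion (fun p => H.filter (b1 l p)))).card ≤
      ∑ l ∈ Λ, ∑ p ∈ G l, (H.filter (b1 l p)).card := by
    refine Finset.card_biUnion_le.trans ?_
    apply Finset.sum_le_sum
    intro l _
    exact Finset.card_biUnion_le
  have h5 : H.card ≤ (H.filter (fun t => ¬ b0 t ∧ ∀ l ∈ Λ, ∀ p ∈ G l, ¬ b1 l p t)).card +
      ((H.filter b0).card + ∑ l ∈ Λ, ∑ p ∈ G l, (H.filter (b1 l p)).card) := by omega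
  have h6 : (H.card : ℝ) ≤ ((H.filter (fun t => ¬ b0 t ∧ ∀ l ∈ Λ, ∀ p ∈ G l, ¬ b1 l p t)).card : ℝ) +
      (((H.filter b0).card : ℝ) + ∑ l ∈ Λ, ∑ p ∈ G l, ((H.filter (b1 l p)).card : ℝ)) := by
    exact_mod_cast h5
  linarith

open Classical in
theorem CGD (h1 : CLB_stmt) (h2 : CBS_stmt) (h3 : CT0_stmt) (h4 : CTR_stmt) (h5 : CSP_stmt)
    (h6 : CPX_stmt) : CGD_stmt := by
  obtain ⟨C₀, hC0, h2⟩ := h2
  set w₀ : ℕ := ⌈8 * C₀⌉₊ with hw₀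
  have hw1 : 8 * C₀ ≤ w₀ := Nat.le_ceil _
  have hw2 : 1 ≤ w₀ := by
    have : (1 : ℝ) ≤ w₀ := by linarith
    exact_mod_cast this
  set P : ℕ := CGD_P w₀ with hP
  have hP1 : 1 ≤ P := CGD_P_pos w₀
  refine ⟨P, hP1, CGD_P_coprime w₀, ?_⟩
  intro B η c hB hη0 hη1 hc
  set E : ℕ := 16 * 5 ^ 6 * P with hE
  have hE1 : 1 ≤ E := by rw [hE]; omega
  obtain ⟨N1, h1⟩ := h1 E B η hE1 hB hη0 hη1
  obtain ⟨N2, h2⟩ := h2 E B w₀ η hE1 hB hw2 hη0 hη1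
  obtain ⟨N3, h3⟩ := h3 E B η c hE1 hB hη0 hη1 hc
  obtain ⟨N4, h6⟩ := h6 E B η hE1 hB hη0 hη1
  obtain ⟨N5, h7⟩ := CGD_num B η hη0
  refine ⟨max (max N1 N2) (max N3 (max N4 N5)), ?_⟩
  intro N hN Q L V z₀ S T M₀ s₀ hRg hPar hKF hcard hcls
  have hN12 := (le_max_left _ _).trans hN
  have hN35 := (le_max_right _ _).trans hN
  have hN1 := (le_max_left _ _).trans hN12
  have hN2 := (le_max_right _ _).trans hN12
  have hN3 := (le_max_left _ _).trans hN35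
  have hN45 := (le_max_right _ _).trans hN35
  have hN4 := (le_max_left _ _).trans hN45
  have hN5 := (le_max_right _ _).trans hN45
  obtain ⟨_, h6⟩ := h6 N hN4 Q hRg
  obtain ⟨_, hS2, hV3, hL1, _, _, _, hEQ⟩ := h6 L V z₀ S hPar
  obtain ⟨hn1, hn2, hn3⟩ := h7 N hN5
  have hcls' : ∀ k ∈ T, 0 ≤ (M₀ k).re ∧ (M₀ k).re < E ∧ 0 ≤ (M₀ k).im ∧ (M₀ k).im < E ∧ 0 ≤ s₀ k ∧
      s₀ k < E := by
    intro k hk
    have := hcls k hk
    have e : (E : ℤ) = 16 * 5 ^ 6 * (P : ℤ) := by rw [hE]; push_cast; ring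
    rw [e]
    exact this
  have hlow := h1 N hN1 Q L V z₀ S T M₀ s₀ hRg hPar hKF
  have hT0 := h3 N hN3 Q L V z₀ S T hRg hPar hKF hcard
  -- the bad primes
  set Λ : Finset ℕ := (Icc 1 ⌊N ^ (3 / 4 * η)⌋₊).filter (fun l => l.Prime ∧ Nat.Coprime l E ∧ w₀ < l ∧
    (l : ℝ) ≤ N ^ (3 / 4 * η)) with hΛ
  have hG : ∀ l : ℕ, ∃ G : Finset (ℕ × OO), l.Prime → l ≠ 2 → l ≠ 5 → G.card ≤ 2 ∧
    (∀ p ∈ G, 1 ≤ p.1 ∧ p.1 * p.2.norm.natAbs = l ∧ p.2.re ^ 2 ≤ p.2.norm.natAbs ∧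
      p.2.im ^ 2 ≤ p.2.norm.natAbs) ∧
    ∀ (k n M : OO) (s : ℤ), 2 * ph * star n * k ^ 2 = r5 * (s : OO) - (M.norm : OO) → (l : OO) ∣ n →
      ∃ p ∈ G, (p.1 : OO) * p.2 ∣ M ∧ (p.1 : ℤ) * p.2.norm ∣ s := by
    intro l
    by_cases h : l.Prime ∧ l ≠ 2 ∧ l ≠ 5
    · obtain ⟨G, hG⟩ := h5 l h.1 h.2.1 h.2.2
      exact ⟨G, fun _ _ _ => hG⟩
    · exact ⟨∅, fun a b c => (h ⟨a, b, c⟩).elim⟩
  choose G hG using hG
  have hΛ1 : ∀ l ∈ Λ, l.Prime ∧ Nat.Coprime l E ∧ w₀ < l ∧ (l : ℝ) ≤ N ^ (3 / 4 * η) := by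
    intro l hl
    exact (Finset.mem_filter.1 hl).2
  have hcop25 : ∀ l : ℕ, l.Prime → Nat.Coprime l E → l ≠ 2 ∧ l ≠ 5 := by
    intro l hl hc
    constructor
    · rintro rfl
      rw [Nat.Prime.coprime_iff_not_dvd hl] at hc
      exact hc ⟨8 * 5 ^ 6 * P, by rw [hE]; ring⟩
    · rintro rfl
      rw [Nat.Prime.coprime_iff_not_dvd hl] at hc
      exact hc ⟨16 * 5 ^ 5 * P, by rw [hE]; ring⟩
  have hΛ2 : ∀ l ∈ Λ, (G l).card ≤ 2 ∧ ∀ p ∈ G l, p.1 * p.2.norm.natAbs = l ∧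
      p.2.re ^ 2 ≤ p.2.norm.natAbs ∧ p.2.im ^ 2 ≤ p.2.norm.natAbs := by
    intro l hl
    obtain ⟨a, b, _, _⟩ := hΛ1 l hl
    obtain ⟨c2, c5⟩ := hcop25 l a b
    obtain ⟨d1, d2, _⟩ := hG l a c2 c5
    exact ⟨d1, fun p hp => (d2 p hp).2⟩
  have hbad := h2 N hN2 Q L V z₀ S T M₀ s₀ hRg hPar hKF hcls' Λ G hΛ1 hΛ2
  -- the tuples with `q ∣ N(M)`
  have hLS : (L : ℝ) ^ 2 ≤ S := by
    have a := hPar.L1
    have hEr : (1 : ℝ) ≤ E := by exact_mod_cast hE1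
    have hLr : (0 : ℝ) ≤ L := Nat.cast_nonneg _
    have b : (L : ℝ) ≤ √S := by nlinarith
    calc (L : ℝ) ^ 2 ≤ √S ^ 2 := pow_le_pow_left₀ hLr b 2
      _ = S := Real.sq_sqrt hPar.S0.le
  have hQL : (Q : ℝ) ≤ L := (hRg.q2.trans hn1).trans hL1
  have hQ1 : (1 : ℝ) ≤ Q := by
    have hEr : (1 : ℝ) ≤ E := by exact_mod_cast hE1
    linarith
  have htr : ∀ k ∈ T, (((Hit E k (M₀ k) (s₀ k) L V z₀).filter
      (fun t => k.norm ∣ (pM E (M₀ k) t).norm)).card : ℝ) ≤ 4 * L * (L / Q) := by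
    intro k hk
    have hk1 := hKF.kk k hk
    have hlo : (Q : ℝ) < k.norm.natAbs := by exact_mod_cast hk1.lo
    have hcop : Nat.Coprime k.norm.natAbs (10 * E) := by
      rw [Nat.Prime.coprime_iff_not_dvd hk1.pr]
      intro hd
      have h10 : k.norm.natAbs ∣ E := by
        rcases (Nat.Prime.dvd_mul hk1.pr).1 hd with a | a
        · exact a.trans ⟨8 * 5 ^ 5 * P, by rw [hE]; ring⟩
        · exact a
      have := Nat.le_of_dvd (by omega) h10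
      have h11 : (E : ℝ) < k.norm.natAbs := by linarith
      have h12 : E < k.norm.natAbs := by exact_mod_cast h11
      omega
    have hV4 : V ≤ k.norm.natAbs ^ 3 := by
      have a : (V : ℝ) ≤ (k.norm.natAbs : ℝ) ^ 3 := by
        have b : (Q : ℝ) ^ 3 ≤ (k.norm.natAbs : ℝ) ^ 3 := pow_le_pow_left₀ (by linarith) hlo.le 3
        have c : (0 : ℝ) ≤ V := Nat.cast_nonneg _
        linarith
      exact_mod_cast a
    have hh := h4 E L V k (M₀ k) (s₀ k) z₀ hk1.pr hcop hV4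
    have hLr : (0 : ℝ) ≤ L := Nat.cast_nonneg _
    have e1 : (L : ℝ) / k.norm.natAbs ≤ L / Q :=
      div_le_div_of_nonneg_left hLr (by linarith) hlo.le
    have e2 : (1 : ℝ) ≤ L / Q := by rw [le_div_iff₀ (by linarith)]; linarith
    calc (((Hit E k (M₀ k) (s₀ k) L V z₀).filter
      (fun t => k.norm ∣ (pM E (M₀ k) t).norm)).card : ℝ) ≤ 2 * L * ((L : ℝ) / k.norm.natAbs + 1) := by
          refine le_trans (le_of_eq ?_) hh
          congr 2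
      _ ≤ 2 * L * (L / Q + L / Q) := by
          apply mul_le_mul_of_nonneg_left _ (by positivity)
          linarith
      _ = 4 * L * (L / Q) := by ring
  have htr2 : ∑ k ∈ T, (((Hit E k (M₀ k) (s₀ k) L V z₀).filter
      (fun t => k.norm ∣ (pM E (M₀ k) t).norm)).card : ℝ) ≤ 4 * S := by
    have hLr : (0 : ℝ) ≤ L := Nat.cast_nonneg _
    have hTQ : (T.card : ℝ) ≤ Q := by exact_mod_cast CGD_card Q T hKF
    calc ∑ k ∈ T, (((Hit E k (M₀ k) (s₀ k) L V z₀).filter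
      (fun t => k.norm ∣ (pM E (M₀ k) t).norm)).card : ℝ) ≤ ∑ k ∈ T, 4 * (L : ℝ) * (L / Q) :=
          Finset.sum_le_sum htr
      _ = T.card * (4 * (L : ℝ) * (L / Q)) := by rw [Finset.sum_const, nsmul_eq_mul]
      _ ≤ Q * (4 * (L : ℝ) * (L / Q)) := by
          apply mul_le_mul_of_nonneg_right hTQ
          positivity
      _ = 4 * (L : ℝ) ^ 2 := by field_simp
      _ ≤ 4 * S := by linarith
  -- the good tuples
  refine ⟨fun k => (Hit E k (M₀ k) (s₀ k) L V z₀).filter (fun t => ¬ k.norm ∣ (pM E (M₀ k) t).norm ∧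
    ∀ l ∈ Λ, ∀ p ∈ G l, ¬ ((p.1 : OO) * p.2 ∣ pM E (M₀ k) t ∧ (p.1 : ℤ) * p.2.norm ∣ ps E (s₀ k) t)),
    ?_, ?_, ?_⟩
  · intro k _
    exact Finset.filter_subset _ _
  · have hrem : ∀ k ∈ T, ((Hit E k (M₀ k) (s₀ k) L V z₀).card : ℝ) -
        (((Hit E k (M₀ k) (s₀ k) L V z₀).filter (fun t => k.norm ∣ (pM E (M₀ k) t).norm)).card : ℝ) -
        ∑ l ∈ Λ, ∑ p ∈ G l, (((Hit E k (M₀ k) (s₀ k) L V z₀).filter (fun t =>
      (p.1 : OO) * p.2 ∣ pM E (M₀ k) t ∧ (p.1 : ℤ) * p.2.norm ∣ ps E (s₀ k) t)).card : ℝ) ≤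
        (((Hit E k (M₀ k) (s₀ k) L V z₀).filter (fun t => ¬ k.norm ∣ (pM E (M₀ k) t).norm ∧
    ∀ l ∈ Λ, ∀ p ∈ G l, ¬ ((p.1 : OO) * p.2 ∣ pM E (M₀ k) t ∧
      (p.1 : ℤ) * p.2.norm ∣ ps E (s₀ k) t))).card : ℝ) := by
      intro k _
      exact CGD_remove (Hit E k (M₀ k) (s₀ k) L V z₀) (fun t => k.norm ∣ (pM E (M₀ k) t).norm) Λ G
        (fun _ p t => (p.1 : OO) * p.2 ∣ pM E (M₀ k) t ∧ (p.1 : ℤ) * p.2.norm ∣ ps E (s₀ k) t)
    refine le_trans ?_ (Finset.sum_le_sum hrem)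
    rw [Finset.sum_sub_distrib, Finset.sum_sub_distrib]
    have hswap : ∑ k ∈ T, ∑ l ∈ Λ, ∑ p ∈ G l, (((Hit E k (M₀ k) (s₀ k) L V z₀).filter (fun t =>
      (p.1 : OO) * p.2 ∣ pM E (M₀ k) t ∧ (p.1 : ℤ) * p.2.norm ∣ ps E (s₀ k) t)).card : ℝ) =
      ∑ l ∈ Λ, ∑ p ∈ G l, ∑ k ∈ T, (((Hit E k (M₀ k) (s₀ k) L V z₀).filter (fun t =>
      (p.1 : OO) * p.2 ∣ pM E (M₀ k) t ∧ (p.1 : ℤ) * p.2.norm ∣ ps E (s₀ k) t)).card : ℝ) := by
      rw [Finset.sum_comm]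
      apply Finset.sum_congr rfl
      intro l _
      rw [Finset.sum_comm]
    rw [hswap]
    have hw3 : C₀ / w₀ ≤ 1 / 8 := by
      rw [div_le_iff₀ (by linarith)]
      linarith
    have hT1 : 0 ≤ T0 T L V := by
      unfold T0
      exact Finset.sum_nonneg (fun k _ => by positivity)
    have hw4 : C₀ / w₀ * T0 T L V ≤ 1 / 8 * T0 T L V := mul_le_mul_of_nonneg_right hw3 hT1
    linarith
  · intro k hk t ht
    obtain ⟨_, ht1, ht2⟩ := Finset.mem_filter.1 ht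
    refine ⟨ht1, ?_⟩
    intro n l heq hl hlN hdvd
    by_contra hcon
    have hcop := CGD_cop l P hl hcon
    have hcopE : Nat.Coprime l E := hcop
    obtain ⟨c2, c5⟩ := hcop25 l hl hcopE
    have hwl : w₀ < l := by
      by_contra hle
      push Not at hle
      exact hcon (Dvd.dvd.mul_left (CGD_P_dvd w₀ l hl c2 c5 hle) 10)
    have hlΛ : l ∈ Λ := by
      rw [hΛ, Finset.mem_filter]
      exact ⟨Finset.mem_Icc.2 ⟨hl.one_lt.le, Nat.le_floor hlN⟩, hl, hcopE, hwl, hlN⟩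
    obtain ⟨_, _, d3⟩ := hG l hl c2 c5
    obtain ⟨p, hp, hp1, hp2⟩ := d3 k n (pM E (M₀ k) t) (ps E (s₀ k) t) heq hdvd
    exact ht2 l hlΛ p hp ⟨hp1, hp2⟩

end Pool.Agent.RF
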