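import Pool.Agent.helper33.RF.SpecL

set_option autoImplicit false

namespace Pool.Agent.RF

open NumberField

open scoped QuadraticAlgebra

theorem YLG_r5 : r5 * r5 = (5 : OO) := by
  ext <;> rfl

theorem YLG_w2 : w2 * star w2 = (5 : OO) := by
  have e : (5 : OO) = ((5 : ℤ) : OO) := by norm_num
  rw [e]
  apply QuadraticAlgebra.ext
  · rw [QuadraticAlgebra.re_intCast]
    simp [w2]
  · rw [QuadraticAlgebra.im_intCast]
    simp [w2]

/-- at most two elements -/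
theorem YLG_two (S : Finset OO) (h : S.card ≤ 2) : ∃ π₁ π₂ : OO, ∀ π ∈ S, π = π₁ ∨ π = π₂ := by
  classical
  have h3 : S.card = 0 ∨ S.card = 1 ∨ S.card = 2 := by omega
  rcases h3 with h3 | h3 | h3
  · rw [Finset.card_eq_zero] at h3
    refine ⟨0, 0, fun π hπ => ?_⟩
    rw [h3] at hπ
    simp at hπ
  · rw [Finset.card_eq_one] at h3
    obtain ⟨a, ha⟩ := h3
    refine ⟨a, a, fun π hπ => ?_⟩
    rw [ha, Finset.mem_singleton] at hπ
    exact Or.inl hπ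
  · rw [Finset.card_eq_two] at h3
    obtain ⟨a, b, _, hab⟩ := h3
    refine ⟨a, b, fun π hπ => ?_⟩
    rw [hab, Finset.mem_insert, Finset.mem_singleton] at hπ
    exact hπ

/-- the prime elements above `l` -/
theorem YLG_pi (hYVM : YVM_stmt) (l : ℕ) (D₀ : ℤ) (hl : l.Prime) (h2 : l ≠ 2) (h5 : l ≠ 5) (hD : Squarefree D₀)
    (π : OO) (hπ : Prime π) (hpl : π ∣ (l : OO)) (hpl2 : ¬ π ^ 2 ∣ (l : OO))
    (hint : ∀ m : ℤ, π ∣ (m : OO) → (l : ℤ) ∣ m) :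
    ¬ π ∣ 2 ∧ ¬ π ∣ r5 ∧ ¬ π ^ 2 ∣ -(w2 * (D₀ : OO)) := by
  have q2 : ¬ π ∣ (2 : OO) := by
    intro h
    have h1 : π ∣ ((2 : ℤ) : OO) := by
      have e : ((2 : ℤ) : OO) = 2 := by norm_num
      rw [e]
      exact h
    have h3 := hint 2 h1
    have h4 : l ∣ 2 := by exact_mod_cast h3
    exact h2 ((Nat.prime_dvd_prime_iff_eq hl Nat.prime_two).1 h4)
  have q5 : ¬ π ∣ (5 : OO) := by
    intro h
    have h1 : π ∣ ((5 : ℤ) : OO) := by
      have e : ((5 : ℤ) : OO) = 5 := by norm_num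
      rw [e]
      exact h
    have h3 := hint 5 h1
    have h4 : l ∣ 5 := by exact_mod_cast h3
    exact h5 ((Nat.prime_dvd_prime_iff_eq hl Nat.prime_five).1 h4)
  have qr : ¬ π ∣ r5 := by
    intro h
    apply q5
    rw [← YLG_r5]
    exact h.mul_right _
  have qw : ¬ π ∣ w2 := by
    intro h
    apply q5
    rw [← YLG_w2]
    exact h.mul_right _
  refine ⟨q2, qr, ?_⟩
  intro h
  have h1 : π ^ 2 ∣ (D₀ : OO) * w2 := by
    have := (dvd_neg).1 h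
    rw [mul_comm]
    exact this
  have h3 : π ^ (2 - 0) ∣ (D₀ : OO) := (hYVM π hπ).1 (D₀ : OO) w2 2 0 h1 (by rw [zero_add, pow_one]; exact qw)
  have h4 : π ^ 2 ∣ (D₀ : OO) := h3
  have h6 : (l : ℤ) ∣ D₀ := hint D₀ ((dvd_pow_self π (by norm_num)).trans h4)
  obtain ⟨D₁, hD₁⟩ := h6
  have h7 : π ^ 2 ∣ (D₁ : OO) * (l : OO) := by
    have e : (D₀ : OO) = (D₁ : OO) * (l : OO) := by
      rw [hD₁]
      push_cast
      ring
    rw [← e]
    exact h4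
  have h8 : π ^ (2 - 1) ∣ (D₁ : OO) := (hYVM π hπ).1 (D₁ : OO) (l : OO) 2 1 h7 hpl2
  have h9 : π ∣ (D₁ : OO) := by
    have : π ^ 1 ∣ (D₁ : OO) := h8
    rwa [pow_one] at this
  have h10 : (l : ℤ) * (l : ℤ) ∣ D₀ := by
    rw [hD₁]
    exact mul_dvd_mul_left _ (hint D₁ h9)
  have h11 := hD (l : ℤ) h10
  rw [Int.isUnit_iff] at h11
  have h12 := hl.one_lt
  omega

theorem YLG (hYLP : YLP_stmt) (hYPL : YPL_stmt) (hYVM : YVM_stmt) : YLG_stmt := by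
  classical
  intro l D₀ c J hl h2 h5 hD hc
  obtain ⟨S, hcard, hS1, _, hS3⟩ := hYPL l hl h5
  have key : ∀ π : OO, ∃ lab : OO × OO → Fin 6, π ∈ S → ∀ x y : OO × OO,
      π ^ J ∣ x.2 * HH (-(w2 * (D₀ : OO))) x.1 x.2 → ¬ π ^ (2 * c + 1) ∣ x.1 ^ 2 - x.2 ^ 2 * (-(w2 * (D₀ : OO))) →
      π ^ J ∣ y.2 * HH (-(w2 * (D₀ : OO))) y.1 y.2 → ¬ π ^ (2 * c + 1) ∣ y.1 ^ 2 - y.2 ^ 2 * (-(w2 * (D₀ : OO))) →
      lab x = lab y → π ^ (J - 13 * c) ∣ x.1 * y.2 - y.1 * x.2 := by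
    intro π
    by_cases hπ : π ∈ S
    · obtain ⟨p1, p2, p3, p4⟩ := hS1 π hπ
      obtain ⟨a1, a2, a3⟩ := YLG_pi hYVM l D₀ hl h2 h5 hD π p1 p2 p3 p4
      obtain ⟨lab, hlab⟩ := hYLP π (-(w2 * (D₀ : OO))) c J p1 a1 a2 a3 hc
      exact ⟨lab, fun _ => hlab⟩
    · exact ⟨fun _ => 0, fun h => (hπ h).elim⟩
  choose lab hlab using key
  obtain ⟨π₁, π₂, h12⟩ := YLG_two S hcard
  refine ⟨fun x => Fin.cast (by norm_num) (finProdFinEquiv (lab π₁ x, lab π₂ x)), ?_⟩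
  intro x y hx hx' hy hy' hxy
  have h3 : finProdFinEquiv (lab π₁ x, lab π₂ x) = finProdFinEquiv (lab π₁ y, lab π₂ y) := Fin.cast_injective _ hxy
  have h4 := finProdFinEquiv.injective h3
  have h6 : lab π₁ x = lab π₁ y := congrArg Prod.fst h4
  have h7 : lab π₂ x = lab π₂ y := congrArg Prod.snd h4
  apply hS3
  intro π hπ
  obtain ⟨p1, p2, _, _⟩ := hS1 π hπ
  have hlx : lab π x = lab π y := by
    rcases h12 π hπ with h | h
    · rw [h]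
      exact h6
    · rw [h]
      exact h7
  exact hlab π hπ x y ((pow_dvd_pow_of_dvd p2 J).trans hx) (hx' π p1 p2) ((pow_dvd_pow_of_dvd p2 J).trans hy)
    (hy' π p1 p2) hlx

end Pool.Agent.RF
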